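import Mathlib
import Pool.Agent.Q256.CI.Bnd
import Pool.Agent.Q256.CI.Main

set_option autoImplicit false

namespace Pool.Agent.Q256.VT

open Finset MvPolynomial
open Pool.Agent.Q256.CI

/-- forms in the box with given value at the integral vector `y`. -/
def VanC (n d B : ℕ) (y : Fin (n + 1) → ℤ) (c : ℤ) : Set (MvPolynomial (Fin (n + 1)) ℤ) :=
  {F | F ∈ Box n d B ∧ eval y F = c}

theorem finite_vanC (n d B : ℕ) (y : Fin (n + 1) → ℤ) (c : ℤ) : (VanC n d B y c).Finite :=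
  (finite_box n d B).subset (fun _ h => h.1)

theorem countC_one {n : ℕ} (y : Fin (n + 1) → ℤ)
    (hprim : ∃ a : Fin (n + 1) → ℤ, ∑ k, a k * y k = 1)
    (q : ℕ) (hq1 : 1 ≤ q) (k0 : Fin (n + 1)) (hq : |y k0| = q) (T : ℕ)
    (L : Fin n → Fin (n + 1) → ℤ) (hL : ∀ j k, |L j k| ≤ T)
    (hind : LinearIndependent ℚ (fun j => (fun k => (L j k : ℚ))))
    (horth : ∀ j, ∑ k, (L j k : ℚ) * y k = 0) (d H : ℕ) (hHT : H ≤ T) (c : ℤ) :
    Nat.card (VanC n d H y c) * (T * q ^ d) ≤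
      (2 * (((n + 1) ^ d * (1 + n * d) + 1) * T) + 1) ^ (n + d).choose n := by
  classical
  choose w hw1 hw2 hw3 using form_rep y hprim q hq1 k0 hq T L hL hind horth d
  rw [← card_box]
  have hqr : (0 : ℝ) < (q : ℝ) ^ d := by positivity
  have hcard : Nat.card (VanC n d H y c) * (T * q ^ d) =
      Nat.card (VanC n d H y c × Fin (T * q ^ d)) := by
    rw [Nat.card_prod, Nat.card_fin]
  rw [hcard]
  have hmem : ∀ p : VanC n d H y c × Fin (T * q ^ d),
      p.1.1 + w (p.2.1 : ℤ) ∈ Box n d (((n + 1) ^ d * (1 + n * d) + 1) * T) := by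
    rintro ⟨⟨F, hF⟩, m⟩
    refine ⟨hF.1.1.add (hw1 _), fun α => ?_⟩
    rw [coeff_add]
    have h1 : |((F.coeff α : ℤ) : ℝ)| ≤ T := by
      have h2 : |F.coeff α| ≤ (T : ℤ) := (hF.1.2 α).trans (by exact_mod_cast hHT)
      exact_mod_cast h2
    have h2 := hw3 (m.1 : ℤ) α
    have h3 : |(((m.1 : ℕ) : ℤ) : ℝ)| / (q : ℝ) ^ d ≤ T := by
      rw [div_le_iff₀ hqr]
      have h4 : ((m.1 : ℕ) : ℝ) ≤ T * q ^ d := by exact_mod_cast m.2.le
      rw [Int.cast_natCast, abs_of_nonneg (Nat.cast_nonneg _)]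
      exact h4
    have h5 : |(((w (m.1 : ℤ)).coeff α : ℤ) : ℝ)| ≤ (n + 1 : ℝ) ^ d * (T + n * d * T) :=
      h2.trans (mul_le_mul_of_nonneg_left (by linarith) (by positivity))
    have h6 : |((F.coeff α + (w (m.1 : ℤ)).coeff α : ℤ) : ℝ)| ≤
        ((((n + 1) ^ d * (1 + n * d) + 1) * T : ℕ) : ℝ) := by
      push_cast
      refine (abs_add_le _ _).trans ?_
      refine (add_le_add h1 h5).trans (le_of_eq ?_)
      ring
    exact_mod_cast h6
  have : Finite (Box n d (((n + 1) ^ d * (1 + n * d) + 1) * T)) :=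
    (finite_box _ _ _).to_subtype
  refine Nat.card_le_card_of_injective (fun p => (⟨_, hmem p⟩ :
    Box n d (((n + 1) ^ d * (1 + n * d) + 1) * T))) ?_
  rintro ⟨⟨F, hF⟩, m⟩ ⟨⟨G, hG⟩, m'⟩ h
  have h1 : F + w (m.1 : ℤ) = G + w (m'.1 : ℤ) := congrArg Subtype.val h
  have h2 := congrArg (eval y) h1
  rw [map_add, map_add, hF.2, hG.2, hw2, hw2, add_right_inj] at h2
  have h3 : m = m' := by
    apply Fin.ext; exact_mod_cast h2
  subst h3
  have h4 : F = G := add_right_cancel h1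
  subst h4
  rfl

theorem countC_real {n : ℕ} (y : Fin (n + 1) → ℤ)
    (hprim : ∃ a : Fin (n + 1) → ℤ, ∑ k, a k * y k = 1)
    (q : ℕ) (hq1 : 1 ≤ q) (k0 : Fin (n + 1)) (hq : |y k0| = q) (T : ℕ) (hT : 1 ≤ T)
    (L : Fin n → Fin (n + 1) → ℤ) (hL : ∀ j k, |L j k| ≤ T)
    (hind : LinearIndependent ℚ (fun j => (fun k => (L j k : ℚ))))
    (horth : ∀ j, ∑ k, (L j k : ℚ) * y k = 0) (d H : ℕ) (hHT : H ≤ T) (c : ℤ) :
    (Nat.card (VanC n d H y c) : ℝ) ≤
      K n d * (T : ℝ) ^ ((n + d).choose n - 1) * ((q : ℝ) ^ d)⁻¹ := by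
  have h := countC_one y hprim q hq1 k0 hq T L hL hind horth d H hHT c
  unfold K
  have hN : 1 ≤ (n + d).choose n := Nat.choose_pos (Nat.le_add_right _ _)
  set N := (n + d).choose n with hNdef
  have hT0 : (0 : ℝ) < T := by exact_mod_cast hT
  have hqr : (0 : ℝ) < (q : ℝ) ^ d := by positivity
  have h1 : (Nat.card (VanC n d H y c) : ℝ) * (T * q ^ d) ≤
      ((2 * ((n + 1) ^ d * (1 + n * d)) + 3 : ℝ) * T) ^ N := by
    have h2 : ((Nat.card (VanC n d H y c) * (T * q ^ d) : ℕ) : ℝ) ≤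
        (((2 * (((n + 1) ^ d * (1 + n * d) + 1) * T) + 1) ^ N : ℕ) : ℝ) := by exact_mod_cast h
    push_cast at h2
    refine h2.trans (pow_le_pow_left₀ (by positivity) ?_ _)
    have h3 : (1 : ℝ) ≤ T := by exact_mod_cast hT
    nlinarith
  rw [mul_pow] at h1
  have h4 : (T : ℝ) ^ N = (T : ℝ) ^ (N - 1) * T := by
    rw [← pow_succ]; congr 1; omega
  rw [h4] at h1
  have h5 : (Nat.card (VanC n d H y c) : ℝ) * q ^ d ≤
      (2 * ((n + 1) ^ d * (1 + n * d)) + 3 : ℝ) ^ N * (T : ℝ) ^ (N - 1) := by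
    have h6 : ((Nat.card (VanC n d H y c) : ℝ) * q ^ d) * T ≤
        ((2 * ((n + 1) ^ d * (1 + n * d)) + 3 : ℝ) ^ N * (T : ℝ) ^ (N - 1)) * T := by
      calc _ = (Nat.card (VanC n d H y c) : ℝ) * (T * q ^ d) := by ring
        _ ≤ _ := h1
        _ = _ := by ring
    exact le_of_mul_le_mul_right h6 hT0
  rw [← div_eq_mul_inv, le_div_iff₀ hqr]
  exact h5

/-- summability with a real exponent. -/
theorem summ_real (n : ℕ) (s : ℝ) (hs : s < -((n : ℝ) + 1)) :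
    Summable (fun y : Fin (n + 1) → ℤ => ‖(fun k => (y k : ℝ))‖ ^ s) := by
  classical
  let b := Pi.basisFun ℝ (Fin (n + 1))
  let Λ : Submodule ℤ (Fin (n + 1) → ℝ) := Submodule.span ℤ (Set.range b)
  have hmem : ∀ y : Fin (n + 1) → ℤ, (fun k => (y k : ℝ)) ∈ Λ := by
    intro y
    have h : (fun k => (y k : ℝ)) = ∑ k, y k • b k := by
      funext j
      simp [b, Pi.single_apply]
    rw [h]
    exact Submodule.sum_mem _ (fun k _ => Submodule.smul_mem _ _ (Submodule.subset_span ⟨k, rfl⟩))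
  have hrank : Module.finrank ℤ Λ = n + 1 := by
    rw [ZLattice.rank ℝ Λ]; simp
  have hs := ZLattice.summable_norm_rpow Λ s (by rw [hrank]; push_cast; exact hs)
  have hinj : Function.Injective (fun y : Fin (n + 1) → ℤ => (⟨_, hmem y⟩ : Λ)) := by
    intro y z h
    have h1 := congrArg Subtype.val h
    funext k
    have h2 : (y k : ℝ) = z k := congrFun h1 k
    exact_mod_cast h2
  have h3 := hs.comp_injective hinj
  refine h3.congr (fun y => ?_)
  rfl

end Pool.Agent.Q256.VT
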