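import Mathlib
import Pool.Agent.H813R3.Voj.Rad
import Pool.Agent.H510R2.Div

set_option autoImplicit false

namespace Pool.Agent.Q256.VT

open Finset
open Pool.Agent.H813R3.Voj (rho rho_pos sum_inv_rho)

theorem rho_natAbs (S : Finset ℕ) (v : ℤ) : rho S ((v.natAbs : ℕ) : ℤ) = rho S v := by
  unfold rho; rw [Int.natAbs_natCast]

/-- tuples of nonzero integers in a box with small radical. -/
noncomputable def Tup {r : ℕ} (S : Finset ℕ) (X : Fin r → ℕ) (R : ℝ) : Finset (Fin r → ℤ) :=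
  (Fintype.piFinset (fun i => Icc (-(X i : ℤ)) (X i))).filter
    (fun v => (∀ i, v i ≠ 0) ∧ (rho S (∏ i, v i) : ℝ) ≤ R)

theorem card_tup (r : ℕ) (S : Finset ℕ) (η : ℝ) (hη : 0 < η) :
    ∃ C : ℝ, 0 < C ∧ ∀ (X : Fin r → ℕ) (R : ℝ), (∀ i, 1 ≤ X i) → 0 ≤ R →
      (#(Tup S X R) : ℝ) ≤ C * R * ((∏ i, X i : ℕ) : ℝ) ^ η := by
  classical
  have hη1 : 0 < η / (2 * (r + 1)) := by positivity
  obtain ⟨C1, hC1, hdiv⟩ := Pool.Agent.H510R2.divisor_bound (η / (2 * (r + 1))) hη1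
  obtain ⟨C2, hC2, hrho⟩ := sum_inv_rho S (δ := η / 2) (by positivity)
  refine ⟨(2 * C1) ^ r * C2, by positivity, fun X R hX hR => ?_⟩
  set P : ℕ := ∏ i, X i with hP
  have hP1 : 1 ≤ P := Nat.one_le_iff_ne_zero.2 (prod_ne_zero_iff.2 (fun i _ => by
    have := hX i; omega))
  have hP1r : (1 : ℝ) ≤ P := by exact_mod_cast hP1
  let B : Finset ℕ := (Icc 1 P).filter (fun m => (rho S (m : ℤ) : ℝ) ≤ R)
  have hBcard : (#B : ℝ) ≤ R * (C2 * (P : ℝ) ^ (η / 2)) := by
    refine le_trans ?_ (mul_le_mul_of_nonneg_left (hrho P hP1) hR)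
    rw [Finset.card_eq_sum_ones, Nat.cast_sum, Finset.mul_sum, Finset.sum_filter]
    refine Finset.sum_le_sum fun m _ => ?_
    have h2 : (0 : ℝ) < rho S (m : ℤ) := by exact_mod_cast rho_pos S _
    split_ifs with h4
    · rw [mul_one_div, le_div_iff₀ h2]
      simpa using h4
    · positivity
  have hmaps : ∀ v ∈ Tup S X R, (∏ i, v i).natAbs ∈ B := by
    intro v hv
    rw [Tup, mem_filter, Fintype.mem_piFinset] at hv
    obtain ⟨h1, h2, h3⟩ := hv
    rw [mem_filter, mem_Icc]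
    have h4 : (∏ i, v i) ≠ 0 := prod_ne_zero_iff.2 (fun i _ => h2 i)
    refine ⟨⟨?_, ?_⟩, ?_⟩
    · have := Int.natAbs_pos.2 h4
      omega
    · have h5 : (∏ i, v i).natAbs = ∏ i, (v i).natAbs := map_prod Int.natAbsHom v univ
      rw [h5]
      refine prod_le_prod' (fun i _ => ?_)
      have := mem_Icc.1 (h1 i)
      omega
    · rw [rho_natAbs]; exact h3
  have hfib : ∀ m ∈ B, #{v ∈ Tup S X R | (∏ i, v i).natAbs = m} ≤ (2 * #(m.divisors)) ^ r := by
    intro m hm
    rw [mem_filter, mem_Icc] at hm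
    let D : Finset ℤ := (m.divisors.image (fun k : ℕ => (k : ℤ))) ∪
      (m.divisors.image (fun k : ℕ => -(k : ℤ)))
    have hD : #D ≤ 2 * #(m.divisors) := by
      refine (card_union_le _ _).trans ?_
      have := card_image_le (s := m.divisors) (f := fun k : ℕ => (k : ℤ))
      have := card_image_le (s := m.divisors) (f := fun k : ℕ => -(k : ℤ))
      omega
    have hsub : {v ∈ Tup S X R | (∏ i, v i).natAbs = m} ⊆
        Fintype.piFinset (fun _ : Fin r => D) := by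
      intro v hv
      rw [mem_filter] at hv
      rw [Fintype.mem_piFinset]
      intro i
      have h5 : (∏ i, v i).natAbs = ∏ i, (v i).natAbs := map_prod Int.natAbsHom v univ
      have h6 : (v i).natAbs ∣ m := by
        rw [← hv.2, h5]; exact dvd_prod_of_mem _ (mem_univ i)
      have h7 : (v i).natAbs ∈ m.divisors := Nat.mem_divisors.2 ⟨h6, by omega⟩
      rw [mem_union, mem_image, mem_image]
      rcases Int.natAbs_eq (v i) with h8 | h8
      · left; exact ⟨_, h7, h8.symm⟩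
      · right; exact ⟨_, h7, h8.symm⟩
    refine (card_le_card hsub).trans ?_
    rw [Fintype.card_piFinset, prod_const, card_univ, Fintype.card_fin]
    exact Nat.pow_le_pow_left hD r
  have h1 : #(Tup S X R) = ∑ m ∈ B, #{v ∈ Tup S X R | (∏ i, v i).natAbs = m} :=
    card_eq_sum_card_fiberwise hmaps
  have h2 : (#(Tup S X R) : ℝ) ≤ ∑ m ∈ B, ((2 * C1) ^ r * (P : ℝ) ^ (η / 2)) := by
    rw [h1]
    push_cast
    refine sum_le_sum (fun m hm => ?_)
    have h3 : (#{v ∈ Tup S X R | (∏ i, v i).natAbs = m} : ℝ) ≤ ((2 * #(m.divisors) : ℕ) : ℝ) ^ r := by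
      exact_mod_cast hfib m hm
    refine h3.trans ?_
    rw [mem_filter, mem_Icc] at hm
    have h4 : (#(m.divisors) : ℝ) ≤ C1 * (P : ℝ) ^ (η / (2 * (r + 1))) := by
      refine (hdiv m hm.1.1).trans ?_
      have : (m : ℝ) ^ (η / (2 * (r + 1))) ≤ (P : ℝ) ^ (η / (2 * (r + 1))) :=
        Real.rpow_le_rpow (by positivity) (by exact_mod_cast hm.1.2) hη1.le
      exact mul_le_mul_of_nonneg_left this hC1.le
    calc ((2 * #(m.divisors) : ℕ) : ℝ) ^ r ≤ (2 * C1 * (P : ℝ) ^ (η / (2 * (r + 1)))) ^ r := by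
          push_cast
          refine pow_le_pow_left₀ (by positivity) ?_ r
          calc (2 : ℝ) * #(m.divisors) ≤ 2 * (C1 * (P : ℝ) ^ (η / (2 * (r + 1)))) := by linarith
            _ = _ := by ring
      _ = (2 * C1) ^ r * (P : ℝ) ^ (η / (2 * (r + 1)) * r) := by
          rw [mul_pow, ← Real.rpow_natCast ((P : ℝ) ^ (η / (2 * (r + 1)))) r, ← Real.rpow_mul (by positivity)]
      _ ≤ (2 * C1) ^ r * (P : ℝ) ^ (η / 2) := by
          refine mul_le_mul_of_nonneg_left ?_ (by positivity)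
          refine Real.rpow_le_rpow_of_exponent_le hP1r ?_
          rw [div_mul_eq_mul_div, div_le_div_iff₀ (by positivity) (by norm_num)]
          have : (0 : ℝ) ≤ r := Nat.cast_nonneg r
          nlinarith
  rw [sum_const, nsmul_eq_mul] at h2
  calc (#(Tup S X R) : ℝ) ≤ #B * ((2 * C1) ^ r * (P : ℝ) ^ (η / 2)) := h2
    _ ≤ (R * (C2 * (P : ℝ) ^ (η / 2))) * ((2 * C1) ^ r * (P : ℝ) ^ (η / 2)) := by gcongr
    _ = ((2 * C1) ^ r * C2) * R * ((P : ℝ) ^ (η / 2) * (P : ℝ) ^ (η / 2)) := by ring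
    _ = _ := by
        rw [← Real.rpow_add (by linarith)]
        congr 2
        ring

end Pool.Agent.Q256.VT
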