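import Mathlib
import Pool.Agent.Q256.VT.Tup
import Pool.Agent.Q256.VT.Cnt
import Pool.Agent.Q256.CI.Gen

set_option autoImplicit false

namespace Pool.Agent.Q256.VT

open Finset MvPolynomial
open Pool.Agent.Q256.CI
open Pool.Agent.H813R3.Voj (rho rho_pos)

/-- coprime coordinates. -/
def Prim {n : ℕ} (y : Fin (n + 1) → ℤ) : Prop := ∃ a : Fin (n + 1) → ℤ, ∑ k, a k * y k = 1

theorem Prim.ne {n : ℕ} {y : Fin (n + 1) → ℤ} (h : Prim y) : y ≠ 0 := by
  rintro rfl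
  obtain ⟨a, ha⟩ := h
  simp at ha

/-- systems in the boxes with a point `y`, cut out by small hyperplanes, at which the values have
small radical. -/
def SR {n r : ℕ} (S : Finset ℕ) (d : Fin r → ℕ) (H T : ℕ) (R : (Fin (n + 1) → ℤ) → ℝ) :
    Set (Fin r → MvPolynomial (Fin (n + 1)) ℤ) :=
  {F | (∀ i, F i ∈ Box n (d i) H) ∧ ∃ y : Fin (n + 1) → ℤ, Prim y ∧
    CutOut T (fun k => (y k : ℚ)) ∧ (∀ i, eval y (F i) ≠ 0) ∧
    (rho S (∏ i, eval y (F i)) : ℝ) ≤ R y}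

theorem sr_finite {n r : ℕ} (S : Finset ℕ) (d : Fin r → ℕ) (H T : ℕ)
    (R : (Fin (n + 1) → ℤ) → ℝ) : (SR S d H T R).Finite := by
  refine (Set.Finite.pi' (fun i => finite_box n (d i) H)).subset ?_
  rintro F ⟨h, _⟩ i
  exact h i

/-- the count for one point. -/
theorem count_y {n r : ℕ} (S : Finset ℕ) (d : Fin r → ℕ) (H T : ℕ) (hT : 1 ≤ T) (hHT : H ≤ T)
    (y : Fin (n + 1) → ℤ) (hy : Prim y) (hcut : CutOut T (fun k => (y k : ℚ))) (R : ℝ)
    (A : Finset (Fin r → MvPolynomial (Fin (n + 1)) ℤ))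
    (hA : ∀ F ∈ A, (∀ i, F i ∈ Box n (d i) H) ∧ (∀ i, eval y (F i) ≠ 0) ∧
      (rho S (∏ i, eval y (F i)) : ℝ) ≤ R) :
    (#A : ℝ) ≤ #(Tup S (fun i => (n + d i).choose n * (T * qq y ^ d i)) R) *
      ∏ i, (K n (d i) * (T : ℝ) ^ ((n + d i).choose n - 1) * (((qq y : ℕ) : ℝ) ^ d i)⁻¹) := by
  classical
  obtain ⟨L, hL, hind, horth⟩ := hcut
  obtain ⟨k0, hk0⟩ := exists_qq y
  have hq1 : 1 ≤ qq y := qq_pos y hy.ne
  set X : Fin r → ℕ := fun i => (n + d i).choose n * (T * qq y ^ d i) with hX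
  have hmaps : ∀ F ∈ A, (fun i => eval y (F i)) ∈ Tup S X R := by
    intro F hF
    obtain ⟨h1, h2, h3⟩ := hA F hF
    rw [Tup, mem_filter, Fintype.mem_piFinset]
    refine ⟨fun i => ?_, h2, h3⟩
    rw [mem_Icc, ← abs_le]
    have hbox : F i ∈ Box n (d i) T := ⟨(h1 i).1, fun α => ((h1 i).2 α).trans (by exact_mod_cast hHT)⟩
    have := size (F i) hbox y (qq y : ℕ) (by positivity) (le_qq y)
    simp only [hX]
    push_cast
    exact this
  have h1 : #A = ∑ v ∈ Tup S X R, #{F ∈ A | (fun i => eval y (F i)) = v} :=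
    card_eq_sum_card_fiberwise hmaps
  rw [h1]
  push_cast
  have h2 : ∀ v ∈ Tup S X R, (#{F ∈ A | (fun i => eval y (F i)) = v} : ℝ) ≤
      ∏ i, (K n (d i) * (T : ℝ) ^ ((n + d i).choose n - 1) * (((qq y : ℕ) : ℝ) ^ d i)⁻¹) := by
    intro v _
    have hsub : {F ∈ A | (fun i => eval y (F i)) = v} ⊆
        Fintype.piFinset (fun i => (finite_vanC n (d i) H y (v i)).toFinset) := by
      intro F hF
      rw [mem_filter] at hF
      rw [Fintype.mem_piFinset]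
      intro i
      rw [Set.Finite.mem_toFinset]
      exact ⟨(hA F hF.1).1 i, congrFun hF.2 i⟩
    have h6 : (#{F ∈ A | (fun i => eval y (F i)) = v} : ℝ) ≤
        ∏ i, (Nat.card (VanC n (d i) H y (v i)) : ℝ) := by
      have h7 := card_le_card hsub
      rw [Fintype.card_piFinset] at h7
      have h8 : ∀ i, #((finite_vanC n (d i) H y (v i)).toFinset) =
          Nat.card (VanC n (d i) H y (v i)) := by
        intro i
        rw [Nat.card_coe_set_eq, Set.ncard_eq_toFinset_card _ (finite_vanC n (d i) H y (v i))]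
      simp_rw [h8] at h7
      exact_mod_cast h7
    refine h6.trans (prod_le_prod (fun i _ => Nat.cast_nonneg _) (fun i _ => ?_))
    exact countC_real y hy (qq y) hq1 k0 hk0 T hT L hL hind horth (d i) H hHT (v i)
  refine (sum_le_sum h2).trans ?_
  rw [sum_const, nsmul_eq_mul]

/-- The number of systems with a point at which the radical is small. -/
theorem main_count {n r : ℕ} (S : Finset ℕ) (d : Fin r → ℕ) (hd : ∀ i, 1 ≤ d i) (ε : ℝ)
    (hε : 0 < ε) :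
    ∃ C : ℝ, 0 ≤ C ∧ ∀ (lam δ : ℝ) (H T : ℕ), 0 ≤ lam → 1 ≤ T → H ≤ T →
      (Nat.card (SR (n := n) S d H T (fun y => lam * ((T : ℝ) ^ ((r : ℝ) - δ) *
        ((qq y : ℕ) : ℝ) ^ ((∑ i, (d i : ℝ)) - n - 1 - ε)))) : ℝ) ≤
        C * lam * (T : ℝ) ^ ((∑ i, ((n + d i).choose n : ℝ)) - δ + ε) := by
  classical
  set D : ℕ := ∑ i, d i with hD
  have hDr : (∑ i, (d i : ℝ)) = D := by rw [hD]; push_cast; rfl
  have hrD : r ≤ D := by
    calc r = ∑ _i : Fin r, 1 := by simp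
      _ ≤ D := sum_le_sum (fun i _ => hd i)
  have hrDr : (r : ℝ) ≤ D := by exact_mod_cast hrD
  set η : ℝ := ε / (2 * (D + 1)) with hη
  have hD0 : (0 : ℝ) ≤ D := Nat.cast_nonneg _
  have hη0 : 0 < η := by positivity
  have hDη : D * η ≤ ε / 2 := by
    rw [hη, mul_div_assoc', div_le_div_iff₀ (by positivity) (by norm_num)]
    nlinarith
  have hrη : r * η ≤ ε := by
    have : (r : ℝ) * η ≤ D * η := mul_le_mul_of_nonneg_right hrDr hη0.le
    linarith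
  obtain ⟨C1, hC1, hTup⟩ := card_tup r S η hη0
  set N0 : ℕ := ∏ i, (n + d i).choose n with hN0
  have hN0' : 1 ≤ N0 := Nat.one_le_iff_ne_zero.2 (prod_ne_zero_iff.2 (fun i _ =>
    (Nat.choose_pos (Nat.le_add_right _ _)).ne'))
  set P : ℝ := ∏ i, K n (d i) with hP
  have hP0 : 0 ≤ P := prod_nonneg (fun i _ => K_nonneg n (d i))
  set s : ℝ := -((n : ℝ) + 1) - ε / 2 with hs
  refine ⟨C1 * (N0 : ℝ) ^ η * P * ∑' y : Fin (n + 1) → ℤ, ‖(fun k => (y k : ℝ))‖ ^ s, ?_, ?_⟩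
  · exact mul_nonneg (by positivity) (tsum_nonneg (fun y => by positivity))
  intro lam δ H T hlam hT hHT
  set Rf : (Fin (n + 1) → ℤ) → ℝ := fun y => lam * ((T : ℝ) ^ ((r : ℝ) - δ) *
        ((qq y : ℕ) : ℝ) ^ ((∑ i, (d i : ℝ)) - n - 1 - ε)) with hRf
  have hTr : (1 : ℝ) ≤ T := by exact_mod_cast hT
  have hT0 : (0 : ℝ) < T := by linarith
  have key : ∀ F : Fin r → MvPolynomial (Fin (n + 1)) ℤ, ∃ y : Fin (n + 1) → ℤ,
      F ∈ SR (n := n) S d H T Rf → Prim y ∧ CutOut T (fun k => (y k : ℚ)) ∧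
        (∀ i, F i ∈ Box n (d i) H) ∧ (∀ i, eval y (F i) ≠ 0) ∧
        (rho S (∏ i, eval y (F i)) : ℝ) ≤ Rf y := by
    intro F
    by_cases hF : F ∈ SR (n := n) S d H T Rf
    · obtain ⟨h1, y, h2, h3, h4, h5⟩ := hF
      exact ⟨y, fun _ => ⟨h2, h3, h1, h4, h5⟩⟩
    · exact ⟨0, fun h => absurd h hF⟩
  choose Y hY using key
  let B : Finset (Fin r → MvPolynomial (Fin (n + 1)) ℤ) := (sr_finite (n := n) S d H T Rf).toFinset
  have hB : ∀ F, F ∈ B ↔ F ∈ SR (n := n) S d H T Rf := fun F => Set.Finite.mem_toFinset _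
  have hcard : Nat.card (SR (n := n) S d H T Rf) = #B := by
    rw [Nat.card_coe_set_eq, Set.ncard_eq_toFinset_card _ (sr_finite (n := n) S d H T Rf)]
  rw [hcard, card_eq_sum_card_image Y B]
  push_cast
  set E : ℝ := (∑ i, ((n + d i).choose n : ℝ)) - δ + ε with hE
  have hone : ∀ y ∈ B.image Y, (#{F ∈ B | Y F = y} : ℝ) ≤
      C1 * (N0 : ℝ) ^ η * P * lam * (T : ℝ) ^ E * ‖(fun k => (y k : ℝ))‖ ^ s := by
    intro y hy
    obtain ⟨F0, hF0, rfl⟩ := Finset.mem_image.1 hy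
    obtain ⟨hprim, hcut, -⟩ := hY F0 ((hB F0).1 hF0)
    set y := Y F0 with hydef
    have hq1 : 1 ≤ qq y := qq_pos y hprim.ne
    have hq1r : (1 : ℝ) ≤ ((qq y : ℕ) : ℝ) := by exact_mod_cast hq1
    have hq0 : (0 : ℝ) < ((qq y : ℕ) : ℝ) := by linarith
    have h1 := count_y S d H T hT hHT y hprim hcut (Rf y) {F ∈ B | Y F = y} (by
      intro F hF
      rw [mem_filter] at hF
      have := hY F ((hB F).1 hF.1)
      rw [hF.2] at this
      exact this.2.2)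
    have hRy : 0 ≤ Rf y := by rw [hRf]; positivity
    have h2 := hTup (fun i => (n + d i).choose n * (T * qq y ^ d i)) (Rf y) (fun i => by
      have e1 : 0 < (n + d i).choose n := Nat.choose_pos (Nat.le_add_right _ _)
      have e2 : 0 < T * qq y ^ d i := by positivity
      exact Nat.mul_pos e1 e2) hRy
    have h3 : ((∏ i, ((n + d i).choose n * (T * qq y ^ d i)) : ℕ) : ℝ) =
        N0 * ((T : ℝ) ^ r * ((qq y : ℕ) : ℝ) ^ D) := by
      rw [prod_mul_distrib, prod_mul_distrib, prod_const, card_univ, Fintype.card_fin,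
        prod_pow_eq_pow_sum]
      rw [hN0, hD]
      push_cast
      rfl
    rw [h3] at h2
    have h4 : (N0 * ((T : ℝ) ^ r * ((qq y : ℕ) : ℝ) ^ D)) ^ η =
        (N0 : ℝ) ^ η * ((T : ℝ) ^ (r * η) * ((qq y : ℕ) : ℝ) ^ (D * η)) := by
      rw [Real.mul_rpow (by positivity) (by positivity),
        Real.mul_rpow (by positivity) (by positivity), ← Real.rpow_natCast (T : ℝ) r,
        ← Real.rpow_mul hT0.le, ← Real.rpow_natCast ((qq y : ℕ) : ℝ) D, ← Real.rpow_mul hq0.le]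
    rw [h4] at h2
    have h5 : ∏ i, (K n (d i) * (T : ℝ) ^ ((n + d i).choose n - 1) *
        (((qq y : ℕ) : ℝ) ^ d i)⁻¹) =
        P * (T : ℝ) ^ ((∑ i, ((n + d i).choose n : ℝ)) - r) * ((qq y : ℕ) : ℝ) ^ (-(D : ℝ)) := by
      rw [prod_mul_distrib, prod_mul_distrib,
        prod_pow_eq_pow_sum univ (fun i => (n + d i).choose n - 1) (T : ℝ), prod_inv_distrib,
        prod_pow_eq_pow_sum univ d ((qq y : ℕ) : ℝ), Real.rpow_neg hq0.le,
        Real.rpow_natCast]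
      congr 2
      rw [← Real.rpow_natCast]
      congr 1
      have : ((∑ i, ((n + d i).choose n - 1) : ℕ) : ℝ) = ∑ i, (((n + d i).choose n : ℝ) - 1) := by
        push_cast
        refine sum_congr rfl (fun i _ => ?_)
        rw [Nat.cast_sub (Nat.choose_pos (Nat.le_add_right _ _))]
        simp
      rw [this, sum_sub_distrib]
      simp
    rw [h5] at h1
    have h6 : (#{F ∈ B | Y F = y} : ℝ) ≤
        (C1 * Rf y * ((N0 : ℝ) ^ η * ((T : ℝ) ^ (r * η) * ((qq y : ℕ) : ℝ) ^ (D * η)))) *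
        (P * (T : ℝ) ^ ((∑ i, ((n + d i).choose n : ℝ)) - r) *
          ((qq y : ℕ) : ℝ) ^ (-(D : ℝ))) :=
      h1.trans (mul_le_mul_of_nonneg_right h2 (by positivity))
    refine h6.trans ?_
    have h7 : (C1 * Rf y * ((N0 : ℝ) ^ η * ((T : ℝ) ^ (r * η) * ((qq y : ℕ) : ℝ) ^ (D * η)))) *
        (P * (T : ℝ) ^ ((∑ i, ((n + d i).choose n : ℝ)) - r) *
          ((qq y : ℕ) : ℝ) ^ (-(D : ℝ))) =
        C1 * (N0 : ℝ) ^ η * P * lam *
        ((T : ℝ) ^ ((r : ℝ) - δ) * (T : ℝ) ^ (r * η) *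
          (T : ℝ) ^ ((∑ i, ((n + d i).choose n : ℝ)) - r)) *
        (((qq y : ℕ) : ℝ) ^ ((∑ i, (d i : ℝ)) - n - 1 - ε) * ((qq y : ℕ) : ℝ) ^ (D * η) *
          ((qq y : ℕ) : ℝ) ^ (-(D : ℝ))) := by
      rw [hRf]; ring
    rw [h7, ← Real.rpow_add hT0, ← Real.rpow_add hT0, ← Real.rpow_add hq0, ← Real.rpow_add hq0,
      norm_eq_qq]
    have h8 : (T : ℝ) ^ ((r : ℝ) - δ + r * η + ((∑ i, ((n + d i).choose n : ℝ)) - r)) ≤
        (T : ℝ) ^ E := Real.rpow_le_rpow_of_exponent_le hTr (by rw [hE]; linarith)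
    have h9 : ((qq y : ℕ) : ℝ) ^ ((∑ i, (d i : ℝ)) - n - 1 - ε + D * η + -(D : ℝ)) ≤
        ((qq y : ℕ) : ℝ) ^ s := Real.rpow_le_rpow_of_exponent_le hq1r (by
          rw [hs, hDr]; linarith)
    have h10 : (0 : ℝ) ≤ C1 * (N0 : ℝ) ^ η * P * lam := by positivity
    exact mul_le_mul (mul_le_mul_of_nonneg_left h8 h10) h9 (by positivity) (by positivity)
  calc ∑ y ∈ B.image Y, (#{F ∈ B | Y F = y} : ℝ)
      ≤ ∑ y ∈ B.image Y, C1 * (N0 : ℝ) ^ η * P * lam * (T : ℝ) ^ E *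
          ‖(fun k => (y k : ℝ))‖ ^ s := sum_le_sum hone
    _ = C1 * (N0 : ℝ) ^ η * P * lam * (T : ℝ) ^ E *
          ∑ y ∈ B.image Y, ‖(fun k => (y k : ℝ))‖ ^ s := by rw [mul_sum]
    _ ≤ C1 * (N0 : ℝ) ^ η * P * lam * (T : ℝ) ^ E *
          ∑' y : Fin (n + 1) → ℤ, ‖(fun k => (y k : ℝ))‖ ^ s := by
        refine mul_le_mul_of_nonneg_left ?_ (by positivity)
        exact (summ_real n s (by rw [hs]; linarith)).sum_le_tsum _ (fun y _ => by positivity)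
    _ = _ := by ring

end Pool.Agent.Q256.VT
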