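import Mathlib
import Pool.Agent.Q256.VT.Main
import Pool.Agent.Q256.CI.Low

set_option autoImplicit false

namespace Pool.Agent.Q256.VT

open Finset MvPolynomial
open Pool.Agent.Q256.CI
open Pool.Agent.H813R3.Voj (rho rho_pos)

/-- the logarithmic height of the point with coprime coordinates `y`. -/
noncomputable def ht {n : ℕ} (y : Fin (n + 1) → ℤ) : ℝ := Real.log ((qq y : ℕ) : ℝ)

/-- the truncated counting function of the divisor `F 0 ⋯ F (r-1) = 0` at the point with coprime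
coordinates `y`: the sum of `log p` over the primes `p` outside `S` which divide a value `F i (y)`. -/
noncomputable def N1 {n r : ℕ} (S : Finset ℕ) (F : Fin r → MvPolynomial (Fin (n + 1)) ℤ)
    (y : Fin (n + 1) → ℤ) : ℝ :=
  ∑ p ∈ (∏ i, eval y (F i)).natAbs.primeFactors \ S, Real.log (p : ℝ)

/-- the systems for which the inequality fails at some point outside the divisor which is cut out by
hyperplanes with coefficients at most `T`. -/
def Fails {n r : ℕ} (S : Finset ℕ) (d : Fin r → ℕ) (H T : ℕ) (ε δ : ℝ) :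
    Set (Fin r → MvPolynomial (Fin (n + 1)) ℤ) :=
  {F | (∀ i, F i ∈ Box n (d i) H) ∧ ∃ y : Fin (n + 1) → ℤ, Prim y ∧
    CutOut T (fun k => (y k : ℚ)) ∧ (∀ i, eval y (F i) ≠ 0) ∧
    N1 S F y < ((∑ i, (d i : ℝ)) - (n + 1) - ε) * ht y + ((r : ℝ) - δ) * Real.log T}

/-- the systems with an `S`-integral point of the complement of the divisor, cut out by hyperplanes
with coefficients at most `T`. -/
def IntS {n r : ℕ} (S : Finset ℕ) (d : Fin r → ℕ) (H T : ℕ) :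
    Set (Fin r → MvPolynomial (Fin (n + 1)) ℤ) :=
  {F | (∀ i, F i ∈ Box n (d i) H) ∧ ∃ y : Fin (n + 1) → ℤ, Prim y ∧
    CutOut T (fun k => (y k : ℚ)) ∧
    ∀ i, eval y (F i) ≠ 0 ∧ ∀ p : ℕ, p.Prime → (p : ℤ) ∣ eval y (F i) → p ∈ S}

/-- the systems with an `S`-integral Campana point for the multiplicities `m i`, cut out by
hyperplanes with coefficients at most `T`: every prime outside `S` which divides `F i (y)` divides it
at least `m i` times. -/
def Camp {n r : ℕ} (S : Finset ℕ) (d m : Fin r → ℕ) (H T : ℕ) :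
    Set (Fin r → MvPolynomial (Fin (n + 1)) ℤ) :=
  {F | (∀ i, F i ∈ Box n (d i) H) ∧ ∃ y : Fin (n + 1) → ℤ, Prim y ∧
    CutOut T (fun k => (y k : ℚ)) ∧
    ∀ i, eval y (F i) ≠ 0 ∧ ∀ p : ℕ, p.Prime → p ∉ S → (p : ℤ) ∣ eval y (F i) →
      (p : ℤ) ^ m i ∣ eval y (F i)}

theorem card_le_of_sub {α : Type*} {A B : Set α} (h : A ⊆ B) (hB : B.Finite) :
    (Nat.card A : ℝ) ≤ Nat.card B := by
  rw [Nat.card_coe_set_eq, Nat.card_coe_set_eq]
  exact_mod_cast Set.ncard_le_ncard h hB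

theorem fails {n r : ℕ} (S : Finset ℕ) (d : Fin r → ℕ) (hd : ∀ i, 1 ≤ d i) (ε : ℝ)
    (hε : 0 < ε) :
    ∃ C : ℝ, ∀ (δ : ℝ) (H T : ℕ), 1 ≤ T → H ≤ T →
      (Nat.card (Fails (n := n) S d H T ε δ) : ℝ) ≤
        C * (T : ℝ) ^ ((∑ i, ((n + d i).choose n : ℝ)) - δ + ε) := by
  classical
  obtain ⟨C, hC, h⟩ := main_count (n := n) S d hd ε hε
  refine ⟨C, fun δ H T hT hHT => ?_⟩
  have h1 := h 1 δ H T zero_le_one hT hHT
  rw [mul_one] at h1
  refine (card_le_of_sub ?_ (sr_finite _ _ _ _ _)).trans h1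
  rintro F ⟨hF, y, hy, hcut, hne, hlt⟩
  refine ⟨hF, y, hy, hcut, hne, ?_⟩
  have hT0 : (0 : ℝ) < T := by exact_mod_cast hT
  have hq0 : (0 : ℝ) < ((qq y : ℕ) : ℝ) := by exact_mod_cast qq_pos y hy.ne
  have hrho : (0 : ℝ) < rho S (∏ i, eval y (F i)) := by exact_mod_cast rho_pos S _
  have hN : N1 S F y = Real.log (rho S (∏ i, eval y (F i))) := by
    unfold N1 rho
    push_cast
    rw [Real.log_prod]
    intro p hp
    rw [mem_sdiff] at hp
    exact_mod_cast (Nat.prime_of_mem_primeFactors hp.1).ne_zero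
  rw [hN] at hlt
  have h2 : ((rho S (∏ i, eval y (F i)) : ℕ) : ℝ) <
      (T : ℝ) ^ ((r : ℝ) - δ) * ((qq y : ℕ) : ℝ) ^ ((∑ i, (d i : ℝ)) - n - 1 - ε) := by
    rw [Real.rpow_def_of_pos hT0, Real.rpow_def_of_pos hq0, ← Real.exp_add,
      ← Real.log_lt_iff_lt_exp hrho]
    refine hlt.trans_le (le_of_eq ?_)
    unfold ht
    ring
  change ((rho S (∏ i, eval y (F i)) : ℕ) : ℝ) ≤
    1 * ((T : ℝ) ^ ((r : ℝ) - δ) * ((qq y : ℕ) : ℝ) ^ ((∑ i, (d i : ℝ)) - n - 1 - ε))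
  rw [one_mul]
  exact h2.le

theorem ints {n r : ℕ} (S : Finset ℕ) (d : Fin r → ℕ) (hd : ∀ i, 1 ≤ d i)
    (hsum : n + 2 ≤ ∑ i, d i) (ε : ℝ) (hε : 0 < ε) :
    ∃ C : ℝ, ∀ (H T : ℕ), 1 ≤ T → H ≤ T →
      (Nat.card (IntS (n := n) S d H T) : ℝ) ≤
        C * (T : ℝ) ^ ((∑ i, ((n + d i).choose n : ℝ)) - r + ε) := by
  classical
  have hε1 : 0 < min ε 1 := lt_min hε one_pos
  obtain ⟨C, hC, h⟩ := main_count (n := n) S d hd (min ε 1) hε1
  refine ⟨C, fun H T hT hHT => ?_⟩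
  have hTr : (1 : ℝ) ≤ T := by exact_mod_cast hT
  have h1 := h 1 r H T zero_le_one hT hHT
  rw [mul_one] at h1
  have h2 : (T : ℝ) ^ ((∑ i, ((n + d i).choose n : ℝ)) - r + min ε 1) ≤
      (T : ℝ) ^ ((∑ i, ((n + d i).choose n : ℝ)) - r + ε) :=
    Real.rpow_le_rpow_of_exponent_le hTr (by linarith [min_le_left ε 1])
  refine (card_le_of_sub ?_ (sr_finite _ _ _ _ _)).trans
    (h1.trans (mul_le_mul_of_nonneg_left h2 hC))
  rintro F ⟨hF, y, hy, hcut, hall⟩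
  refine ⟨hF, y, hy, hcut, fun i => (hall i).1, ?_⟩
  have hq1 : (1 : ℝ) ≤ ((qq y : ℕ) : ℝ) := by exact_mod_cast qq_pos y hy.ne
  have hrho : rho S (∏ i, eval y (F i)) = 1 := by
    unfold rho
    have : (∏ i, eval y (F i)).natAbs.primeFactors \ S = ∅ := by
      rw [Finset.sdiff_eq_empty_iff_subset]
      intro p hp
      have hpp := Nat.prime_of_mem_primeFactors hp
      have hdvd : (p : ℤ) ∣ ∏ i, eval y (F i) :=
        Int.natCast_dvd.2 (Nat.dvd_of_mem_primeFactors hp)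
      obtain ⟨i, -, hi⟩ := (Nat.prime_iff_prime_int.1 hpp).exists_mem_finset_dvd hdvd
      exact (hall i).2 p hpp hi
    rw [this, prod_empty]
  change ((rho S (∏ i, eval y (F i)) : ℕ) : ℝ) ≤
    1 * ((T : ℝ) ^ ((r : ℝ) - r) * ((qq y : ℕ) : ℝ) ^ ((∑ i, (d i : ℝ)) - n - 1 - min ε 1))
  rw [hrho, sub_self, Real.rpow_zero, one_mul, one_mul, Nat.cast_one]
  refine Real.one_le_rpow hq1 ?_
  have h3 : ((n : ℝ) + 2) ≤ ∑ i, (d i : ℝ) := by exact_mod_cast hsum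
  linarith [min_le_right ε 1]

theorem rho_mul_le (S : Finset ℕ) (a b : ℤ) (ha : a ≠ 0) (hb : b ≠ 0) :
    rho S (a * b) ≤ rho S a * rho S b := by
  unfold rho
  rw [Int.natAbs_mul, Nat.primeFactors_mul (Int.natAbs_ne_zero.2 ha) (Int.natAbs_ne_zero.2 hb),
    union_sdiff_distrib]
  have h1 := prod_union_inter (s₁ := a.natAbs.primeFactors \ S) (s₂ := b.natAbs.primeFactors \ S)
    (f := fun p : ℕ => p)
  rw [← h1]
  refine Nat.le_mul_of_pos_right _ (prod_pos (fun p hp => ?_))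
  rw [mem_inter, mem_sdiff] at hp
  exact (Nat.prime_of_mem_primeFactors hp.1.1).pos

theorem rho_prod_le {r : ℕ} (S : Finset ℕ) (v : Fin r → ℤ) (hv : ∀ i, v i ≠ 0) :
    rho S (∏ i, v i) ≤ ∏ i, rho S (v i) := by
  classical
  have key : ∀ A : Finset (Fin r), rho S (∏ i ∈ A, v i) ≤ ∏ i ∈ A, rho S (v i) := by
    intro A
    induction A using Finset.induction_on with
    | empty => simp [rho]
    | insert a A ha ih =>
      rw [prod_insert ha, prod_insert ha]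
      exact (rho_mul_le S _ _ (hv a) (prod_ne_zero_iff.2 (fun i _ => hv i))).trans
        (Nat.mul_le_mul_left _ ih)
  exact key univ

theorem rho_pow_le (S : Finset ℕ) (v : ℤ) (hv : v ≠ 0) (m : ℕ)
    (h : ∀ p : ℕ, p.Prime → p ∉ S → (p : ℤ) ∣ v → (p : ℤ) ^ m ∣ v) :
    rho S v ^ m ≤ v.natAbs := by
  classical
  refine Nat.le_of_dvd (Int.natAbs_pos.2 hv) ?_
  rw [← Int.natCast_dvd]
  unfold rho
  push_cast
  rw [← prod_pow]
  refine Finset.prod_dvd_of_coprime ?_ ?_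
  · intro p hp q hq hpq
    rw [mem_coe, mem_sdiff] at hp hq
    have h1 : Nat.Coprime p q :=
      (Nat.coprime_primes (Nat.prime_of_mem_primeFactors hp.1)
        (Nat.prime_of_mem_primeFactors hq.1)).2 hpq
    exact (Nat.isCoprime_iff_coprime.2 h1).pow
  · intro p hp
    rw [mem_sdiff] at hp
    exact h p (Nat.prime_of_mem_primeFactors hp.1) hp.2
      (Int.natCast_dvd.2 (Nat.dvd_of_mem_primeFactors hp.1))

/-- the number of systems with a Campana point. -/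
theorem camp {n r : ℕ} (S : Finset ℕ) (d m : Fin r → ℕ) (hd : ∀ i, 1 ≤ d i) (hm : ∀ i, 1 ≤ m i)
    (hsum : (n : ℝ) + 1 < ∑ i, (d i : ℝ) * (1 - 1 / m i)) (ε : ℝ) (hε : 0 < ε) :
    ∃ C : ℝ, ∀ (H T : ℕ), 1 ≤ T → H ≤ T →
      (Nat.card (Camp (n := n) S d m H T) : ℝ) ≤
        C * (T : ℝ) ^ ((∑ i, ((n + d i).choose n : ℝ)) - (∑ i, (1 - 1 / (m i : ℝ))) + ε) := by
  classical
  set g : ℝ := (∑ i, (d i : ℝ) * (1 - 1 / m i)) - (n + 1) with hg
  have hg0 : 0 < g := by rw [hg]; linarith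
  have hε1 : 0 < min ε g := lt_min hε hg0
  obtain ⟨C, hC, h⟩ := main_count (n := n) S d hd (min ε g) hε1
  set lam : ℝ := ∏ i, (((n + d i).choose n : ℝ)) ^ (1 / (m i : ℝ)) with hlam
  have hlam0 : 0 ≤ lam := prod_nonneg (fun i _ => by positivity)
  refine ⟨C * lam, fun H T hT hHT => ?_⟩
  have hTr : (1 : ℝ) ≤ T := by exact_mod_cast hT
  have hT0 : (0 : ℝ) < T := by linarith
  have h1 := h lam ((r : ℝ) - ∑ i, 1 / (m i : ℝ)) H T hlam0 hT hHT
  have h2 : (T : ℝ) ^ ((∑ i, ((n + d i).choose n : ℝ)) - ((r : ℝ) - ∑ i, 1 / (m i : ℝ)) +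
      min ε g) ≤ (T : ℝ) ^ ((∑ i, ((n + d i).choose n : ℝ)) - (∑ i, (1 - 1 / (m i : ℝ))) + ε) := by
    refine Real.rpow_le_rpow_of_exponent_le hTr ?_
    rw [sum_sub_distrib]
    simp only [sum_const, card_univ, Fintype.card_fin, nsmul_eq_mul, mul_one]
    linarith [min_le_left ε g]
  refine (card_le_of_sub ?_ (sr_finite _ _ _ _ _)).trans
    (h1.trans (mul_le_mul_of_nonneg_left h2 (mul_nonneg hC hlam0)))
  rintro F ⟨hF, y, hy, hcut, hall⟩
  refine ⟨hF, y, hy, hcut, fun i => (hall i).1, ?_⟩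
  have hq1 : (1 : ℝ) ≤ ((qq y : ℕ) : ℝ) := by exact_mod_cast qq_pos y hy.ne
  have hq0 : (0 : ℝ) < ((qq y : ℕ) : ℝ) := by linarith
  change ((rho S (∏ i, eval y (F i)) : ℕ) : ℝ) ≤
    lam * ((T : ℝ) ^ ((r : ℝ) - ((r : ℝ) - ∑ i, 1 / (m i : ℝ))) *
      ((qq y : ℕ) : ℝ) ^ ((∑ i, (d i : ℝ)) - n - 1 - min ε g))
  have hone : ∀ i, ((rho S (eval y (F i)) : ℕ) : ℝ) ≤
      ((n + d i).choose n : ℝ) ^ (1 / (m i : ℝ)) * (T : ℝ) ^ (1 / (m i : ℝ)) *
        ((qq y : ℕ) : ℝ) ^ ((d i : ℝ) * (1 / (m i : ℝ))) := by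
    intro i
    have hmi : (0 : ℝ) < m i := by exact_mod_cast hm i
    have h3 := rho_pow_le S (eval y (F i)) (hall i).1 (m i) (hall i).2
    have hbox : F i ∈ Box n (d i) T :=
      ⟨(hF i).1, fun α => ((hF i).2 α).trans (by exact_mod_cast hHT)⟩
    have h4 := size (F i) hbox y (qq y : ℕ) (by positivity) (le_qq y)
    have h5 : ((rho S (eval y (F i)) : ℕ) : ℝ) ^ (m i) ≤
        ((n + d i).choose n : ℝ) * (T * ((qq y : ℕ) : ℝ) ^ d i) := by
      have h6 : ((rho S (eval y (F i)) ^ m i : ℕ) : ℝ) ≤ (((eval y (F i)).natAbs : ℕ) : ℝ) := by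
        exact_mod_cast h3
      have h7 : (((eval y (F i)).natAbs : ℕ) : ℤ) ≤
          ((n + d i).choose n : ℕ) * ((T : ℤ) * ((qq y : ℕ) : ℤ) ^ d i) := by
        rw [← Int.abs_eq_natAbs]; exact h4
      have h8 : (((eval y (F i)).natAbs : ℕ) : ℝ) ≤
          ((n + d i).choose n : ℝ) * (T * ((qq y : ℕ) : ℝ) ^ d i) := by exact_mod_cast h7
      rw [Nat.cast_pow] at h6
      exact h6.trans h8
    have h9 : ((rho S (eval y (F i)) : ℕ) : ℝ) =
        (((rho S (eval y (F i)) : ℕ) : ℝ) ^ (m i)) ^ (1 / (m i : ℝ)) := by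
      rw [one_div, Real.pow_rpow_inv_natCast (Nat.cast_nonneg _) (by have := hm i; omega)]
    rw [h9]
    refine (Real.rpow_le_rpow (by positivity) h5 (by positivity)).trans (le_of_eq ?_)
    rw [Real.mul_rpow (by positivity) (by positivity), Real.mul_rpow (by positivity) (by positivity),
      ← Real.rpow_natCast ((qq y : ℕ) : ℝ) (d i), ← Real.rpow_mul hq0.le]
    ring
  have h10 : ((rho S (∏ i, eval y (F i)) : ℕ) : ℝ) ≤ ∏ i, ((rho S (eval y (F i)) : ℕ) : ℝ) := by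
    exact_mod_cast rho_prod_le S (fun i => eval y (F i)) (fun i => (hall i).1)
  refine (h10.trans (prod_le_prod (fun i _ => Nat.cast_nonneg _) (fun i _ => hone i))).trans ?_
  rw [prod_mul_distrib, prod_mul_distrib, ← hlam, ← Real.rpow_sum_of_pos hT0,
    ← Real.rpow_sum_of_pos hq0, mul_assoc]
  refine mul_le_mul_of_nonneg_left ?_ hlam0
  have e1 : (r : ℝ) - ((r : ℝ) - ∑ i, 1 / (m i : ℝ)) = ∑ i, 1 / (m i : ℝ) := by ring
  rw [e1]
  refine mul_le_mul_of_nonneg_left ?_ (by positivity)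
  refine Real.rpow_le_rpow_of_exponent_le hq1 ?_
  have e2 : g = (∑ i, (d i : ℝ)) - (∑ i, (d i : ℝ) * (1 / (m i : ℝ))) - (n + 1) := by
    rw [hg, ← sum_sub_distrib]
    congr 1
    refine sum_congr rfl (fun i _ => ?_)
    ring
  linarith [min_le_right ε g]

end Pool.Agent.Q256.VT
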